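import Pool.Agent.Helper99.LZ.Quad

/-!
# Packet CPL: the coupling exists
-/

set_option autoImplicit false

open Finset

namespace Pool.Agent.Helper50.LZ

open Pool.Agent.Helper99.LZ

theorem tele (g : ℤ → ℝ) (a b : ℤ) (h : a - 1 ≤ b) :
    ∑ i ∈ Icc a b, (g i - g (i - 1)) = g b - g (a - 1) := by
  induction b, h using Int.le_induction with
  | base => rw [Finset.Icc_eq_empty (by omega)]; simp
  | succ b hb ih =>
    have h1 : Icc a (b + 1) = insert (b + 1) (Icc a b) := by
      ext x
      simp only [mem_Icc, mem_insert]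
      omega
    rw [h1, sum_insert (by simp), ih, show b + 1 - 1 = b by ring]
    ring

/-- overlap of the intervals `[A, B]` and `[s, t]` -/
noncomputable def ov (A B s t : ℝ) : ℝ := max 0 (min B t - max A s)

theorem ov_comm (A B s t : ℝ) : ov A B s t = ov s t A B := by
  unfold ov
  rw [min_comm, max_comm A s]

theorem ov_eq (A B s t : ℝ) (h : A ≤ B) (h' : s ≤ t) :
    ov A B s t = max A (min B t) - max A (min B s) := by
  unfold ov
  simp only [max_def, min_def]
  split_ifs <;> linarith

theorem ov_nonneg (A B s t : ℝ) : 0 ≤ ov A B s t := le_max_left _ _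

theorem ov_zero (A B s t : ℝ) (h : t ≤ A) : ov A B s t = 0 := by
  unfold ov
  apply max_eq_left
  have h1 : min B t ≤ t := min_le_right _ _
  have h2 : A ≤ max A s := le_max_left _ _
  linarith

/-- sum of the overlaps with consecutive intervals -/
theorem ov_sum (A B : ℝ) (g : ℤ → ℝ) (hg : ∀ k, g (k - 1) ≤ g k) (a b : ℤ) (hab : a - 1 ≤ b)
    (h : A ≤ B) (h0 : g (a - 1) ≤ A) (h1 : B ≤ g b) :
    ∑ i ∈ Icc a b, ov A B (g (i - 1)) (g i) = B - A := by
  have h2 : ∀ i ∈ Icc a b, ov A B (g (i - 1)) (g i)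
      = (fun k => max A (min B (g k))) i - (fun k => max A (min B (g k))) (i - 1) :=
    fun i _ => ov_eq A B _ _ h (hg i)
  rw [sum_congr rfl h2, tele _ a b hab]
  show max A (min B (g b)) - max A (min B (g (a - 1))) = B - A
  rw [min_eq_left h1, max_eq_right h, min_eq_right (h0.trans h), max_eq_left h0]

/-- the three kinds of pieces -/
noncomputable def mm (al one : ℤ → ℝ) (o : ℤ → ℤ → ℝ) (i i' : ℤ) : ℝ :=
  (if i' = i then al i else 0) + (if i' = i + 1 then one i' else 0) + o i i'

theorem core (a b : ℤ) (hab : a < b) (L R F hp al : ℤ → ℝ)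
    (hhp : ∀ k, 0 ≤ hp k) (hhp0 : ∀ k, k ≤ a ∨ b ≤ k → hp k = 0)
    (hF0 : ∀ k, k < a ∨ b ≤ k → F k = 0)
    (hal0 : ∀ k, k < a ∨ b < k → al k = 0) (hal : ∀ k, 0 ≤ al k)
    (hL : ∀ k, L k = al k + (F k - hp k)) (hR : ∀ k, R k = al k + (F (k - 1) - hp k))
    (hF1 : ∀ k, hp k ≤ F k) (hF2 : ∀ k, hp k ≤ F (k - 1)) :
    ∃ m : ℤ → ℤ → ℝ, (∀ i i', 0 ≤ m i i') ∧
      (∀ i i', m i i' ≠ 0 → a ≤ i ∧ i ≤ i' ∧ i' ≤ b) ∧
      (∀ i, ∑ i' ∈ Icc a b, m i i' = L i) ∧ (∀ i', ∑ i ∈ Icc a b, m i i' = R i') ∧
      (∀ i, m i i = al i) ∧ (∀ i, m (i - 1) i = F (i - 1) - max (hp (i - 1)) (hp i)) := by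
  obtain ⟨R', hR'⟩ : ∃ R' : ℤ → ℝ, R' = fun k => max 0 (hp (k - 1) - hp k) := ⟨_, rfl⟩
  have hR'n : ∀ k, 0 ≤ R' k := fun k => by rw [hR']; exact le_max_left _ _
  have hR'0 : ∀ k, k ≤ a ∨ b < k → R' k = 0 := by
    intro k hk
    rw [hR']
    show max 0 (hp (k - 1) - hp k) = 0
    have h1 : hp (k - 1) = 0 := hhp0 _ (by omega)
    have h2 := hhp k
    rw [h1]
    exact max_eq_left (by linarith)
  obtain ⟨Q', hQ'⟩ : ∃ Q' : ℤ → ℝ, Q' = fun k => ∑ i ∈ Icc a k, R' i := ⟨_, rfl⟩
  have hQstep : ∀ k, Q' k - Q' (k - 1) = R' k := by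
    intro k
    rw [hQ']
    show ∑ i ∈ Icc a k, R' i - ∑ i ∈ Icc a (k - 1), R' i = R' k
    by_cases hk : a ≤ k
    · have h1 : Icc a k = insert k (Icc a (k - 1)) := by
        ext x
        simp only [mem_Icc, mem_insert]
        omega
      rw [h1, sum_insert (by simp)]
      ring
    · rw [Finset.Icc_eq_empty (by omega), Finset.Icc_eq_empty (by omega), hR'0 k (by omega)]
      simp
  have hQlow : ∀ k, k < a → Q' k = 0 := by
    intro k hk
    rw [hQ']
    show ∑ i ∈ Icc a k, R' i = 0
    rw [Finset.Icc_eq_empty (by omega), sum_empty]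
  have hQmono : ∀ k, Q' (k - 1) ≤ Q' k := fun k => by
    have h1 := hQstep k
    have h2 := hR'n k
    linarith
  have hQm : Monotone Q' := monotone_int_of_le_succ (fun k => by
    have := hQmono (k + 1)
    rwa [show k + 1 - 1 = k by ring] at this)
  have hQhi : ∀ k, b ≤ k → Q' k = Q' b := by
    intro k hk
    induction k, hk using Int.le_induction with
    | base => rfl
    | succ k hk ih =>
      have h1 := hQstep (k + 1)
      rw [show k + 1 - 1 = k by ring, hR'0 (k + 1) (by omega)] at h1
      linarith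
  obtain ⟨P', hP'⟩ : ∃ P' : ℤ → ℝ, P' = fun k => Q' (k + 1) + hp (k + 1) := ⟨_, rfl⟩
  have hPk : ∀ k, P' k = Q' (k + 1) + hp (k + 1) := fun k => by rw [hP']
  have hPstep : ∀ k, P' k - P' (k - 1) = max 0 (hp (k + 1) - hp k) := by
    intro k
    rw [hPk, hPk, show k - 1 + 1 = k by ring]
    have h1 := hQstep (k + 1)
    have h2 : R' (k + 1) = max 0 (hp k - hp (k + 1)) := by
      rw [hR']
      show max 0 (hp (k + 1 - 1) - hp (k + 1)) = _
      rw [show k + 1 - 1 = k by ring]
    rw [show k + 1 - 1 = k by ring, h2] at h1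
    rcases le_total (hp k) (hp (k + 1)) with h3 | h3
    · rw [max_eq_left (by linarith)] at h1
      rw [max_eq_right (by linarith)]
      linarith
    · rw [max_eq_right (by linarith)] at h1
      rw [max_eq_left (by linarith)]
      linarith
  have hPmono : ∀ k, P' (k - 1) ≤ P' k := fun k => by
    have h1 := hPstep k
    have h2 : 0 ≤ max 0 (hp (k + 1) - hp k) := le_max_left _ _
    linarith
  have hPm : Monotone P' := monotone_int_of_le_succ (fun k => by
    have := hPmono (k + 1)
    rwa [show k + 1 - 1 = k by ring] at this)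
  have hPb : P' b = Q' b := by
    rw [hPk, hhp0 (b + 1) (by omega), hQhi (b + 1) (by omega), add_zero]
  have hPhi : ∀ k, P' k ≤ Q' b := by
    intro k
    rcases le_total k b with h | h
    · rw [← hPb]; exact hPm h
    · rw [hPk, hhp0 (k + 1) (by omega), hQhi (k + 1) (by omega), add_zero]
  have hPlow : ∀ k, k < a → P' k = 0 := by
    intro k hk
    rw [hPk, hhp0 (k + 1) (by omega)]
    by_cases h : k + 1 < a
    · rw [hQlow _ h, add_zero]
    · have h1 := hQstep (k + 1)
      rw [show k + 1 - 1 = k by ring, hR'0 (k + 1) (by omega), hQlow k hk] at h1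
      linarith
  have hPn : ∀ k, 0 ≤ P' k := by
    intro k
    rcases lt_or_ge k a with h | h
    · rw [hPlow k h]
    · rw [← hPlow (a - 1) (by omega)]; exact hPm (by omega)
  have hQn : ∀ k, 0 ≤ Q' k := by
    intro k
    rcases lt_or_ge k a with h | h
    · rw [hQlow k h]
    · rw [← hQlow (a - 1) (by omega)]; exact hQm (by omega)
  obtain ⟨o, ho⟩ : ∃ o : ℤ → ℤ → ℝ, o = fun i i' => ov (P' (i - 1)) (P' i) (Q' (i' - 1)) (Q' i') :=
    ⟨_, rfl⟩
  have hoe : ∀ i i', o i i' = ov (P' (i - 1)) (P' i) (Q' (i' - 1)) (Q' i') := fun i i' => by rw [ho]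
  have ho0 : ∀ i i', i' ≤ i + 1 → o i i' = 0 := by
    intro i i' h
    rw [hoe]
    apply ov_zero
    have h1 : Q' i' ≤ Q' (i + 1) := hQm h
    have h2 := hQstep (i + 1)
    have h3 : R' (i + 1) = max 0 (hp i - hp (i + 1)) := by
      rw [hR']
      show max 0 (hp (i + 1 - 1) - hp (i + 1)) = _
      rw [show i + 1 - 1 = i by ring]
    rw [show i + 1 - 1 = i by ring, h3] at h2
    have h4 : max 0 (hp i - hp (i + 1)) ≤ hp i := by
      apply max_le (hhp i)
      have := hhp (i + 1)
      linarith
    rw [hPk, show i - 1 + 1 = i by ring]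
    linarith
  obtain ⟨one, hone⟩ : ∃ one : ℤ → ℝ, one = fun k => F (k - 1) - max (hp (k - 1)) (hp k) := ⟨_, rfl⟩
  have honek : ∀ k, one k = F (k - 1) - max (hp (k - 1)) (hp k) := fun k => by rw [hone]
  have hone_n : ∀ k, 0 ≤ one k := by
    intro k
    rw [honek]
    have := max_le (hF1 (k - 1)) (hF2 k)
    linarith
  have hone0 : ∀ k, k ≤ a ∨ b < k → one k = 0 := by
    intro k hk
    rw [honek, hF0 (k - 1) (by omega), hhp0 (k - 1) (by omega), hhp0 k (by omega)]
    simp
  refine ⟨mm al one o, ?_, ?_, ?_, ?_, ?_, ?_⟩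
  · intro i i'
    unfold mm
    have h1 : 0 ≤ o i i' := by rw [hoe]; exact ov_nonneg _ _ _ _
    have h2 : (0 : ℝ) ≤ if i' = i then al i else 0 := by split_ifs; exacts [hal i, le_rfl]
    have h3 : (0 : ℝ) ≤ if i' = i + 1 then one i' else 0 := by split_ifs; exacts [hone_n i', le_rfl]
    linarith
  · intro i i' hne
    unfold mm at hne
    by_cases h1 : i' = i
    · subst h1
      rw [if_pos rfl, if_neg (by omega), ho0 _ _ (by omega), add_zero, add_zero] at hne
      by_contra hcon
      apply hne
      apply hal0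
      omega
    by_cases h2 : i' = i + 1
    · rw [if_neg h1, if_pos h2, ho0 _ _ (by omega), zero_add, add_zero] at hne
      by_contra hcon
      apply hne
      apply hone0
      omega
    rw [if_neg h1, if_neg h2, zero_add, zero_add] at hne
    have h3 : i + 2 ≤ i' := by
      by_contra h3
      exact hne (ho0 i i' (by omega))
    refine ⟨?_, by omega, ?_⟩
    · by_contra h4
      apply hne
      rw [hoe, ov_comm]
      apply ov_zero
      rw [hPlow i (by omega)]
      exact hQn _
    · by_contra h4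
      apply hne
      rw [hoe, ov_comm, ov_comm]
      unfold ov
      apply max_eq_left
      have h5 : Q' (i' - 1) = Q' b := hQhi _ (by omega)
      have h6 : min (P' i) (Q' i') ≤ P' i := min_le_left _ _
      have h7 : Q' (i' - 1) ≤ max (P' (i - 1)) (Q' (i' - 1)) := le_max_right _ _
      have h8 := hPhi i
      linarith
  · intro i
    unfold mm
    rw [sum_add_distrib, sum_add_distrib]
    have h1 : ∑ i' ∈ Icc a b, (if i' = i then al i else 0) = al i := by
      rw [Finset.sum_ite_eq' (Icc a b) i (fun _ => al i)]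
      split_ifs with h
      · rfl
      · rw [mem_Icc] at h
        rw [hal0 i (by omega)]
    have h2 : ∑ i' ∈ Icc a b, (if i' = i + 1 then one i' else 0) = one (i + 1) := by
      rw [Finset.sum_ite_eq' (Icc a b) (i + 1) (fun k => one k)]
      split_ifs with h
      · rfl
      · rw [mem_Icc] at h
        rw [hone0 (i + 1) (by omega)]
    have h3 : ∑ i' ∈ Icc a b, o i i' = P' i - P' (i - 1) := by
      have : ∀ i' ∈ Icc a b, o i i' = ov (P' (i - 1)) (P' i) (Q' (i' - 1)) (Q' i') :=
        fun i' _ => hoe i i'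
      rw [sum_congr rfl this]
      exact ov_sum _ _ Q' hQmono a b (by omega) (hPmono i)
        (by rw [hQlow (a - 1) (by omega)]; exact hPn _) (hPhi i)
    rw [h1, h2, h3, hPstep, honek, hL, show i + 1 - 1 = i by ring]
    rcases le_total (hp i) (hp (i + 1)) with h4 | h4
    · rw [max_eq_right h4, max_eq_right (by linarith)]
      ring
    · rw [max_eq_left h4, max_eq_left (by linarith)]
      ring
  · intro i'
    unfold mm
    rw [sum_add_distrib, sum_add_distrib]
    have h1 : ∑ i ∈ Icc a b, (if i' = i then al i else 0) = al i' := by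
      rw [Finset.sum_ite_eq (Icc a b) i' (fun k => al k)]
      split_ifs with h
      · rfl
      · rw [mem_Icc] at h
        rw [hal0 i' (by omega)]
    have h2 : ∑ i ∈ Icc a b, (if i' = i + 1 then one i' else 0) = one i' := by
      have : ∀ i ∈ Icc a b, (if i' = i + 1 then one i' else 0) = if i' - 1 = i then one i' else 0 := by
        intro i _
        by_cases h : i' = i + 1
        · rw [if_pos h, if_pos (by omega)]
        · rw [if_neg h, if_neg (by omega)]
      rw [sum_congr rfl this, Finset.sum_ite_eq (Icc a b) (i' - 1) (fun _ => one i')]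
      split_ifs with h
      · rfl
      · rw [mem_Icc] at h
        rw [hone0 i' (by omega)]
    have h3 : ∑ i ∈ Icc a b, o i i' = Q' i' - Q' (i' - 1) := by
      have : ∀ i ∈ Icc a b, o i i' = ov (Q' (i' - 1)) (Q' i') (P' (i - 1)) (P' i) := by
        intro i _
        rw [hoe, ov_comm]
      rw [sum_congr rfl this]
      refine ov_sum _ _ P' hPmono a b (by omega) (hQmono i') ?_ ?_
      · rw [hPlow (a - 1) (by omega)]; exact hQn _
      · rw [hPb]
        rcases le_total i' b with h | h
        · exact hQm h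
        · rw [hQhi i' h]
    rw [h1, h2, h3, hQstep, honek, hR]
    have h5 : R' i' = max 0 (hp (i' - 1) - hp i') := by rw [hR']
    rw [h5]
    rcases le_total (hp (i' - 1)) (hp i') with h4 | h4
    · rw [max_eq_right h4, max_eq_left (by linarith)]
      ring
    · rw [max_eq_left h4, max_eq_right (by linarith)]
      ring
  · intro i
    unfold mm
    rw [if_pos rfl, if_neg (by omega), ho0 _ _ (by omega), add_zero, add_zero]
  · intro i
    unfold mm
    rw [if_neg (by omega), if_pos (by ring), ho0 _ _ (by omega), zero_add, add_zero, honek]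

theorem cpl : StmtCPL := by
  intro T a b hT
  have hP : ∀ k, T.P (k - 1) ≤ T.P k := fun k => by
    have := hT.L0 k
    unfold Pr.L at this
    linarith
  have hQ : ∀ k, T.Q (k - 1) ≤ T.Q k := fun k => by
    have := hT.R0 k
    unfold Pr.R at this
    linarith
  have hPm : Monotone T.P := monotone_int_of_le_succ (fun k => by
    have := hP (k + 1)
    rwa [show k + 1 - 1 = k by ring] at this)
  have hQm : Monotone T.Q := monotone_int_of_le_succ (fun k => by
    have := hQ (k + 1)
    rwa [show k + 1 - 1 = k by ring] at this)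
  have hab := hT.ab
  have hh0 : ∀ k, k ≤ a ∨ b ≤ k → T.h k ≤ 0 := by
    intro k hk
    show T.P (k - 1) - T.Q k ≤ 0
    rcases hk with h | h
    · rw [(hT.lo (k - 1) (by omega)).1]
      have : 0 ≤ T.Q k := by
        rw [← (hT.lo (a - 1) (by omega)).2]
        rcases lt_or_ge k a with h' | h'
        · rw [(hT.lo k h').2, (hT.lo (a - 1) (by omega)).2]
        · exact hQm (by omega)
      linarith
    · rw [(hT.hi k h).2]
      rcases le_total (k - 1) b with h' | h'
      · have := hPm h'
        linarith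
      · rw [(hT.hi (k - 1) h').1]
        linarith
  have hFall : ∀ k, 0 ≤ T.F k := by
    intro k
    rcases lt_or_ge k a with h | h
    · show 0 ≤ T.P k - T.Q k
      rw [(hT.lo k h).1, (hT.lo k h).2, sub_zero]
    · rcases lt_or_ge k b with h' | h'
      · exact (hT.Fpos k h h').le
      · show 0 ≤ T.P k - T.Q k
        rw [(hT.hi k h').1, (hT.hi k h').2, sub_self]
  obtain ⟨m, h1, h2, h3, h4, h5, h6⟩ := core a b hab T.L T.R T.F T.hp T.al
    (fun k => le_max_left _ _)
    (fun k hk => max_eq_left (hh0 k hk))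
    (by
      intro k hk
      show T.P k - T.Q k = 0
      rcases hk with h | h
      · rw [(hT.lo k h).1, (hT.lo k h).2, sub_zero]
      · rw [(hT.hi k h).1, (hT.hi k h).2, sub_self])
    (by
      intro k hk
      show max 0 (-(T.P (k - 1) - T.Q k)) = 0
      rcases hk with h | h
      · rw [(hT.lo (k - 1) (by omega)).1, (hT.lo k h).2]
        simp
      · rw [(hT.hi (k - 1) (by omega)).1, (hT.hi k (by omega)).2]
        simp)
    (fun k => le_max_left _ _)
    (by
      intro k
      show T.P k - T.P (k - 1) = max 0 (-(T.P (k - 1) - T.Q k))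
        + (T.P k - T.Q k - max 0 (T.P (k - 1) - T.Q k))
      rcases le_total (T.P (k - 1)) (T.Q k) with h | h
      · rw [max_eq_right (by linarith), max_eq_left (by linarith)]
        ring
      · rw [max_eq_left (by linarith), max_eq_right (by linarith)]
        ring)
    (by
      intro k
      show T.Q k - T.Q (k - 1) = max 0 (-(T.P (k - 1) - T.Q k))
        + (T.P (k - 1) - T.Q (k - 1) - max 0 (T.P (k - 1) - T.Q k))
      rcases le_total (T.P (k - 1)) (T.Q k) with h | h
      · rw [max_eq_right (by linarith), max_eq_left (by linarith)]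
        ring
      · rw [max_eq_left (by linarith), max_eq_right (by linarith)]
        ring)
    (by
      intro k
      show max 0 (T.P (k - 1) - T.Q k) ≤ T.F k
      apply max_le (hFall k)
      show T.P (k - 1) - T.Q k ≤ T.P k - T.Q k
      have := hP k
      linarith)
    (by
      intro k
      show max 0 (T.P (k - 1) - T.Q k) ≤ T.F (k - 1)
      apply max_le (hFall (k - 1))
      show T.P (k - 1) - T.Q k ≤ T.P (k - 1) - T.Q (k - 1)
      have := hQ k
      linarith)
  exact ⟨m, ⟨h1, h2, h3, h4, h5, h6⟩⟩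

end Pool.Agent.Helper50.LZ
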